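import Pool.Agent.H32R3.ND.Small

set_option autoImplicit false
set_option maxHeartbeats 4000000

/-!
Negative answer to Q1 of MP_a2f83a_an, in every dimension `n ≥ 3` and in a strong form: for every
`k` and every `ε > 0` there is a harmonic polynomial `u` on `ℝ^n` whose order of vanishing at `0`
is at least `k` and whose nodal set on the sphere of radius `1/2` has `(n-2)`-dimensional
Hausdorff measure less than `ε`.

Construction: `u` is the harmonic extension of `c - ∑ w_i ((1 + ⟨e, ξ_i⟩)/2)^M`, where `(w_i, ξ_i)`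
is a positive cubature formula on the sphere, exact for polynomials of degree `< k` (it kills the
homogeneous parts of degree `1, ..., k-1`), `c` is the mean of the kernel, and `M` is large. The
nodal set on the sphere consists of tiny, almost round spheres around the nodes.
-/

open Set Filter Topology MeasureTheory Metric InnerProductSpace Laplacian
open scoped NNReal ENNReal

namespace Pool.Agent.Results.MP_a2f83a_an.NoNodalBound

open H32R3.ND

variable {n : ℕ}

/-- The order of vanishing at `0`: the least `k` such that the `k`-th derivative at `0` (that is,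
the homogeneous Taylor term `P_k`) does not vanish. -/
noncomputable def ordZero (u : EuclideanSpace ℝ (Fin n) → ℝ) : ℕ :=
  sInf {k : ℕ | iteratedFDeriv ℝ k u 0 ≠ 0}

/-- The nodal set on the sphere of radius `1/2`. -/
def nodalSet (u : EuclideanSpace ℝ (Fin n) → ℝ) : Set (EuclideanSpace ℝ (Fin n)) :=
  {x | ‖x‖ = 1 / 2 ∧ u x = 0}

/-- derivatives of homogeneous functions -/
theorem iter_homog {f : EuclideanSpace ℝ (Fin n) → ℝ} {b j : ℕ} (hf : ContDiff ℝ j f)
    (hh : ∀ (l : ℝ) x, f (l • x) = l ^ b * f x) (hj : j < b) : iteratedFDeriv ℝ j f 0 = 0 := by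
  set L : EuclideanSpace ℝ (Fin n) →L[ℝ] EuclideanSpace ℝ (Fin n) :=
    (2 : ℝ) • ContinuousLinearMap.id ℝ _ with hL
  have h1 := L.iteratedFDeriv_comp_right hf (0 : EuclideanSpace ℝ (Fin n)) (i := j) le_rfl
  have h2 : f ∘ L = (2 : ℝ) ^ b • f := by
    ext x
    simp only [Function.comp, Pi.smul_apply, smul_eq_mul]
    rw [← hh]
    rfl
  rw [h2, iteratedFDeriv_const_smul_apply hf.contDiffAt, map_zero] at h1
  ext v
  have h3 := congrArg (fun T => T v) h1
  simp only [ContinuousMultilinearMap.compContinuousLinearMap_apply,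
    _root_.smul_apply, smul_eq_mul] at h3
  have h4 : (fun i : Fin j => L (v i)) = fun i => (2 : ℝ) • v i := by
    ext i
    simp [hL]
  rw [h4, (iteratedFDeriv ℝ j f 0).map_smul_univ (fun _ => (2 : ℝ)) v] at h3
  simp only [Finset.prod_const, Finset.card_univ, Fintype.card_fin, smul_eq_mul] at h3
  have h5 : (2 : ℝ) ^ j < 2 ^ b := pow_lt_pow_right₀ one_lt_two hj
  have h6 : ((2 : ℝ) ^ b - 2 ^ j) * iteratedFDeriv ℝ j f 0 v = 0 := by linarith
  rcases mul_eq_zero.1 h6 with h | h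
  · linarith
  · simpa using h

theorem exists_deriv_ne {u : EuclideanSpace ℝ (Fin n) → ℝ} (hu : AnalyticOnNhd ℝ u univ)
    {x0 : EuclideanSpace ℝ (Fin n)} (hx0 : u x0 ≠ 0) : ∃ j, iteratedFDeriv ℝ j u 0 ≠ 0 := by
  by_contra hcon
  push Not at hcon
  obtain ⟨p, r, hp⟩ := hu 0 (mem_univ 0)
  have h1 : ∀ᶠ y in 𝓝 (0 : EuclideanSpace ℝ (Fin n)), u y = 0 := by
    filter_upwards [Metric.eball_mem_nhds (0 : EuclideanSpace ℝ (Fin n)) hp.r_pos] with y hy
    have h2 := hp.hasSum_iteratedFDeriv hy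
    rw [zero_add] at h2
    refine h2.unique ?_
    have : (fun n_1 : ℕ => ((n_1.factorial : ℝ))⁻¹ • (iteratedFDeriv ℝ n_1 u 0) fun _ => y) =
        fun _ => 0 := by
      ext j
      rw [hcon j]
      simp
    rw [this]
    exact hasSum_zero
  have h3 := hu.eqOn_zero_of_preconnected_of_eventuallyEq_zero isPreconnected_univ (mem_univ 0) h1
  exact hx0 (h3 (mem_univ x0))

/-- **Negative answer to Q1.** For every `n ≥ 3`, every `k` and every `ε > 0` there is a harmonic
function on the unit ball of `ℝ^n`, not identically zero, whose order of vanishing at `0` is at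
least `k` while the `(n-2)`-dimensional Hausdorff measure of its nodal set on the sphere of radius
`1/2` is less than `ε`. -/
theorem result (n : ℕ) (hn : 3 ≤ n) (k : ℕ) (ε : ℝ≥0∞) (hε : 0 < ε) :
    ∃ u : EuclideanSpace ℝ (Fin n) → ℝ,
      HarmonicOnNhd u (ball 0 1) ∧ (∃ x ∈ ball (0 : EuclideanSpace ℝ (Fin n)) 1, u x ≠ 0) ∧
      k ≤ ordZero u ∧
      Measure.hausdorffMeasure ((n - 2 : ℕ) : ℝ) (nodalSet u) < ε := by
  classical
  have hn0 : 0 < n := by omega
  set K := max k 1 with hK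
  obtain ⟨ι, hι, w, ξ, hw, hw1, hξ, hinj, hd⟩ := exists_design hn0 K
  obtain ⟨e0, he0⟩ : ∃ e : EuclideanSpace ℝ (Fin n), ‖e‖ = 1 :=
    ⟨EuclideanSpace.single ⟨0, hn0⟩ 1, by simp⟩
  obtain ⟨M, hM1, hM2⟩ := (nodal_small hn hw hw1 hξ hinj hε he0).exists
  obtain ⟨N, β, hβ⟩ := exists_Kp n M
  have hmean := mean_eq hn0 he0 hβ
  set u : EuclideanSpace ℝ (Fin n) → ℝ := fun x =>
    ∑ b ∈ (Finset.range (N + 1)).filter (fun b => K ≤ b),
      (-((2 : ℝ) ^ b * β b)) * ∑ i, w i * Z n b (ξ i) x with hu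
  have hGc : ∀ (b : ℕ) {m : WithTop ℕ∞}, ContDiff ℝ m (fun x => ∑ i, w i * Z n b (ξ i) x) :=
    fun b _ => ContDiff.sum fun i _ => contDiff_const.mul (Z_contDiff b (ξ i))
  have huc : ∀ {m : WithTop ℕ∞}, ContDiff ℝ m u :=
    ContDiff.sum fun b _ => contDiff_const.mul (hGc b)
  have hGh : ∀ (b : ℕ) (l : ℝ) (x : EuclideanSpace ℝ (Fin n)),
      ∑ i, w i * Z n b (ξ i) (l • x) = l ^ b * ∑ i, w i * Z n b (ξ i) x := by
    intro b l x
    rw [Finset.mul_sum]
    refine Finset.sum_congr rfl fun i _ => ?_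
    rw [Z_homog]
    ring
  -- the value of `u`
  have hval : ∀ x, u x = mean M e0 -
      ∑ i, w i * ∑ b ∈ Finset.range (N + 1), (2 : ℝ) ^ b * β b * Z n b (ξ i) x := by
    intro x
    have h1 : ∑ i, w i * ∑ b ∈ Finset.range (N + 1), (2 : ℝ) ^ b * β b * Z n b (ξ i) x =
        ∑ b ∈ Finset.range (N + 1), (2 : ℝ) ^ b * β b * ∑ i, w i * Z n b (ξ i) x := by
      simp only [Finset.mul_sum]
      rw [Finset.sum_comm]
      exact Finset.sum_congr rfl fun b _ => Finset.sum_congr rfl fun i _ => by ring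
    rw [h1, ← Finset.sum_filter_add_sum_filter_not (Finset.range (N + 1)) (fun b => K ≤ b)]
    have h2 : ∑ b ∈ (Finset.range (N + 1)).filter (fun b => ¬ K ≤ b),
        (2 : ℝ) ^ b * β b * ∑ i, w i * Z n b (ξ i) x = mean M e0 := by
      rw [Finset.sum_eq_single 0]
      · rw [hmean]
        have : ∀ i, Z n 0 (ξ i) x = 1 := by
          intro i
          simp [Z, mono, zc_zero]
        simp [this, hw1]
      · intro b hb hb0
        have hb' : b < K := not_le.1 (Finset.mem_filter.1 hb).2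
        rw [design_Z hn0 hd hb' (by omega), mul_zero]
      · intro h
        exfalso
        apply h
        simp [hK]
    rw [h2]
    simp only [hu, neg_mul, Finset.sum_neg_distrib]
    ring
  have hsphere : ∀ x, ‖x‖ = 1 / 2 → u x = mean M e0 - Phi w ξ M ((2 : ℝ) • x) := by
    intro x hx
    rw [hval, Phi]
    congr 1
    refine Finset.sum_congr rfl fun i _ => ?_
    congr 1
    rw [inner_smul_left]
    simp only [conj_trivial]
    rw [← Kp_eval, hβ, Polynomial.eval_finsetSum]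
    refine Finset.sum_congr rfl fun b _ => ?_
    rw [Polynomial.eval_mul, Polynomial.eval_C, ← Z_half b (ξ i) hx]
    ring
  refine ⟨u, ?_, ?_, ?_, ?_⟩
  · intro x _
    refine ⟨huc.contDiffAt, Filter.Eventually.of_forall fun y => ?_⟩
    have h1 : u = fun x => ∑ b ∈ (Finset.range (N + 1)).filter (fun b => K ≤ b),
      (-((2 : ℝ) ^ b * β b)) * (fun x => ∑ i, w i * Z n b (ξ i) x) x := rfl
    rw [h1, sum_smul_laplacian _ _ _ (fun b _ => hGc b)]
    refine Finset.sum_eq_zero fun b _ => ?_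
    rw [sum_smul_laplacian _ _ _ (fun i _ => Z_contDiff b (ξ i)), Finset.sum_eq_zero, mul_zero]
    intro i _
    rw [Z_laplacian hn0 b (hξ i), mul_zero]
  · have hne : Nonempty ι := by
      by_contra h
      rw [not_nonempty_iff] at h
      rw [Finset.univ_eq_empty, Finset.sum_empty] at hw1
      norm_num at hw1
    obtain ⟨i⟩ := hne
    have hx : ‖(1 / 2 : ℝ) • ξ i‖ = 1 / 2 := by rw [norm_smul, hξ i]; norm_num
    refine ⟨(1 / 2 : ℝ) • ξ i, by rw [mem_ball_zero_iff, hx]; norm_num, ?_⟩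
    rw [hsphere _ hx, smul_smul]
    have h1 : w i ≤ Phi w ξ M (((2 : ℝ) * (1 / 2)) • ξ i) := by
      rw [show (2 : ℝ) * (1 / 2) = 1 by norm_num, one_smul, Phi]
      have h2 : w i * ((1 + inner ℝ (ξ i) (ξ i)) / 2) ^ M = w i := by
        rw [real_inner_self_eq_norm_sq, hξ i]
        norm_num
      rw [← h2]
      refine Finset.single_le_sum (f := fun j => w j * ((1 + inner ℝ (ξ i) (ξ j)) / 2) ^ M)
        (fun j _ => ?_) (Finset.mem_univ i)
      exact mul_nonneg (hw j).le (pow_nonneg (base_bd (hξ i) (hξ j)).1 M)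
    have h3 := hM2 i
    intro h4
    linarith
  · have hne : ∃ x ∈ ball (0 : EuclideanSpace ℝ (Fin n)) 1, u x ≠ 0 := by
      have hne : Nonempty ι := by
        by_contra h
        rw [not_nonempty_iff] at h
        rw [Finset.univ_eq_empty, Finset.sum_empty] at hw1
        norm_num at hw1
      obtain ⟨i⟩ := hne
      have hx : ‖(1 / 2 : ℝ) • ξ i‖ = 1 / 2 := by rw [norm_smul, hξ i]; norm_num
      refine ⟨(1 / 2 : ℝ) • ξ i, by rw [mem_ball_zero_iff, hx]; norm_num, ?_⟩
      rw [hsphere _ hx, smul_smul]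
      have h1 : w i ≤ Phi w ξ M (((2 : ℝ) * (1 / 2)) • ξ i) := by
        rw [show (2 : ℝ) * (1 / 2) = 1 by norm_num, one_smul, Phi]
        have h2 : w i * ((1 + inner ℝ (ξ i) (ξ i)) / 2) ^ M = w i := by
          rw [real_inner_self_eq_norm_sq, hξ i]
          norm_num
        rw [← h2]
        refine Finset.single_le_sum (f := fun j => w j * ((1 + inner ℝ (ξ i) (ξ j)) / 2) ^ M)
          (fun j _ => ?_) (Finset.mem_univ i)
        exact mul_nonneg (hw j).le (pow_nonneg (base_bd (hξ i) (hξ j)).1 M)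
      have h3 := hM2 i
      intro h4
      linarith
    obtain ⟨x0, -, hx0⟩ := hne
    have han : AnalyticOnNhd ℝ u univ := (huc (m := ⊤)).analyticOnNhd
    refine le_csInf (exists_deriv_ne han hx0) ?_
    intro j hj
    by_contra hjk
    push Not at hjk
    apply hj
    have h1 : u = fun x => ∑ b ∈ (Finset.range (N + 1)).filter (fun b => K ≤ b),
      (fun x => (-((2 : ℝ) ^ b * β b)) * ∑ i, w i * Z n b (ξ i) x) x := rfl
    rw [h1, iteratedFDeriv_fun_sum_apply (fun b _ => (contDiff_const.mul (hGc b)).contDiffAt)]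
    refine Finset.sum_eq_zero fun b hb => ?_
    have hb' : K ≤ b := (Finset.mem_filter.1 hb).2
    refine iter_homog (b := b) (contDiff_const.mul (hGc b)) ?_ ?_
    · intro l x
      rw [hGh]
      ring
    · exact lt_of_lt_of_le hjk ((le_max_left _ _).trans hb')
  · have h1 : nodalSet u ⊆ (fun e : EuclideanSpace ℝ (Fin n) => (1 / 2 : ℝ) • e) ''
        {e : EuclideanSpace ℝ (Fin n) | ‖e‖ = 1 ∧ Phi w ξ M e = mean M e0} := by
      rintro x ⟨hx, hux⟩
      refine ⟨(2 : ℝ) • x, ⟨?_, ?_⟩, ?_⟩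
      · rw [norm_smul, hx]
        norm_num
      · rw [hsphere x hx] at hux
        linarith
      · simp only [smul_smul]
        norm_num
    have h2 : LipschitzWith 1 (fun e : EuclideanSpace ℝ (Fin n) => (1 / 2 : ℝ) • e) := by
      apply LipschitzWith.of_dist_le_mul
      intro x y
      rw [dist_eq_norm, dist_eq_norm, ← smul_sub, norm_smul]
      have : 0 ≤ ‖x - y‖ := norm_nonneg _
      norm_num
      linarith
    have h3 := h2.hausdorffMeasure_image_le (d := ((n - 2 : ℕ) : ℝ)) (Nat.cast_nonneg _)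
      {e : EuclideanSpace ℝ (Fin n) | ‖e‖ = 1 ∧ Phi w ξ M e = mean M e0}
    refine (measure_mono h1).trans_lt (h3.trans_lt ?_)
    simpa using hM1

/-- The literal negation of Q1, in every dimension `n ≥ 3`: there are no `α > 0` and `C < ∞` with
`ord_0(u) ≤ C * H^{n-2}(Z(u))^α` for all harmonic `u` on the ball, not identically zero. -/
theorem no_power_bound (n : ℕ) (hn : 3 ≤ n) : ¬ ∃ α C : ℝ, 0 < α ∧
    ∀ u : EuclideanSpace ℝ (Fin n) → ℝ, HarmonicOnNhd u (ball 0 1) →
      (∃ x ∈ ball (0 : EuclideanSpace ℝ (Fin n)) 1, u x ≠ 0) →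
      (ordZero u : ℝ≥0∞) ≤
        ENNReal.ofReal C * (Measure.hausdorffMeasure ((n - 2 : ℕ) : ℝ) (nodalSet u)) ^ α := by
  rintro ⟨α, C, hα, h⟩
  have h1 : Tendsto (fun t : ℝ≥0∞ => ENNReal.ofReal C * t ^ α) (𝓝 0) (𝓝 0) := by
    have h2 : Tendsto (fun t : ℝ≥0∞ => ENNReal.ofReal C * t ^ α) (𝓝 0)
        (𝓝 (ENNReal.ofReal C * 0 ^ α)) :=
      ENNReal.Tendsto.const_mul (ENNReal.continuous_rpow_const.tendsto 0) (Or.inr ENNReal.ofReal_ne_top)
    rwa [ENNReal.zero_rpow_of_pos hα, mul_zero] at h2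
  have h3 := h1.eventually (gt_mem_nhds (zero_lt_one (α := ℝ≥0∞)))
  obtain ⟨ε, hε0, hε⟩ : ∃ ε : ℝ≥0∞, 0 < ε ∧ ENNReal.ofReal C * ε ^ α < 1 := by
    have h4 : ∀ᶠ t in 𝓝[>] (0 : ℝ≥0∞), ENNReal.ofReal C * t ^ α < 1 :=
      h3.filter_mono nhdsWithin_le_nhds
    obtain ⟨t, h5, h6⟩ := (h4.and self_mem_nhdsWithin).exists
    exact ⟨t, h6, h5⟩
  obtain ⟨u, hu1, hu2, hu3, hu4⟩ := result n hn 1 ε hε0
  have h5 := h u hu1 hu2
  have h6 : (1 : ℝ≥0∞) ≤ (ordZero u : ℝ≥0∞) := by exact_mod_cast hu3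
  have h7 : ENNReal.ofReal C * (Measure.hausdorffMeasure ((n - 2 : ℕ) : ℝ) (nodalSet u)) ^ α ≤
      ENNReal.ofReal C * ε ^ α := by gcongr
  exact absurd (h6.trans (h5.trans h7)) (not_le.2 hε)

end Pool.Agent.Results.MP_a2f83a_an.NoNodalBound
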